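import Pool.Agent.S10917

/-!
# The single-set sum-difference exponent (MP_b3aa1a_co, Q1)

`C` is the least upper bound of `log |A - A| / log |A + A|` over the finite sets `A` of integers
with at least two elements.  We prove `C > log (1 + √2) / log 2`, in the sharper form that one
finite set `A` with at least two elements satisfies `|A - A| > |A + A| ^ (log (1 + √2) / log 2)`.
-/

set_option autoImplicit false

namespace Pool.Agent.Results.MP_b3aa1a_co.SumDifferenceExponent

/-- The sum set `A + A`. -/
def sums (A : Set ℤ) : Set ℤ := {x | ∃ a ∈ A, ∃ b ∈ A, x = a + b}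

/-- The difference set `A - A`. -/
def differences (A : Set ℤ) : Set ℤ := {x | ∃ a ∈ A, ∃ b ∈ A, x = a - b}

/-- The values `log |A - A| / log |A + A|`, for the finite sets `A` of integers with at least two
elements. -/
def ratios : Set ℝ :=
  {x | ∃ A : Set ℤ, A.Finite ∧ 2 ≤ A.ncard ∧
    x = Real.log (differences A).ncard / Real.log (sums A).ncard}

open scoped Pointwise in
theorem sums_coe (A : Finset ℤ) : sums (A : Set ℤ) = ((A + A : Finset ℤ) : Set ℤ) := by
  ext x
  simp only [sums, Set.mem_setOf_eq, Finset.mem_coe, Finset.mem_add]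
  constructor
  · rintro ⟨a, ha, b, hb, h⟩
    exact ⟨a, ha, b, hb, h.symm⟩
  · rintro ⟨a, ha, b, hb, h⟩
    exact ⟨a, ha, b, hb, h.symm⟩

open scoped Pointwise in
theorem differences_coe (A : Finset ℤ) :
    differences (A : Set ℤ) = ((A - A : Finset ℤ) : Set ℤ) := by
  ext x
  simp only [differences, Set.mem_setOf_eq, Finset.mem_coe, Finset.mem_sub]
  constructor
  · rintro ⟨a, ha, b, hb, h⟩
    exact ⟨a, ha, b, hb, h.symm⟩
  · rintro ⟨a, ha, b, hb, h⟩
    exact ⟨a, ha, b, hb, h.symm⟩

theorem bdd : BddAbove ratios := by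
  refine ⟨2, ?_⟩
  rintro x ⟨A, hA, -, rfl⟩
  obtain ⟨B, rfl⟩ := hA.exists_finset_coe
  rw [sums_coe, differences_coe, Set.ncard_coe_finset, Set.ncard_coe_finset]
  exact Pool.Agent.S10917.ratio_le B

open scoped Pointwise in
/-- `ratios` has a least upper bound `C`, and `C > log (1 + √2) / log 2`; indeed one finite set
`A` with at least two elements satisfies `|A - A| > |A + A| ^ (log (1 + √2) / log 2)`. -/
theorem result : (∃ C : ℝ, IsLUB ratios C ∧ Real.log (1 + Real.sqrt 2) / Real.log 2 < C) ∧
    ∃ A : Set ℤ, A.Finite ∧ 2 ≤ A.ncard ∧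
      ((sums A).ncard : ℝ) ^ (Real.log (1 + Real.sqrt 2) / Real.log 2) <
        ((differences A).ncard : ℝ) := by
  classical
  have key : ∃ A : Set ℤ, A.Finite ∧ 2 ≤ A.ncard ∧
      ((sums A).ncard : ℝ) ^ (Real.log (1 + Real.sqrt 2) / Real.log 2) <
        ((differences A).ncard : ℝ) := by
    by_contra hcon
    push Not at hcon
    apply Pool.Agent.S10917.final
    intro A
    have hc : 0 < Real.log (1 + Real.sqrt 2) / Real.log 2 :=
      lt_trans one_pos Pool.Agent.S10917.one_lt_c
    rcases Nat.lt_or_ge A.card 2 with h | h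
    · have h0 : A.card = 0 ∨ A.card = 1 := by omega
      rcases h0 with h0 | h0
      · rw [Finset.card_eq_zero] at h0
        subst h0
        simp [Real.zero_rpow hc.ne']
      · obtain ⟨a, rfl⟩ := Finset.card_eq_one.1 h0
        simp
    · have h1 := hcon (A : Set ℤ) A.finite_toSet (by rw [Set.ncard_coe_finset]; exact h)
      rw [sums_coe, differences_coe, Set.ncard_coe_finset, Set.ncard_coe_finset] at h1
      exact h1
  refine ⟨⟨sSup ratios, ?_, ?_⟩, key⟩
  · obtain ⟨A, h1, h2, -⟩ := key
    exact isLUB_csSup ⟨_, A, h1, h2, rfl⟩ bdd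
  · obtain ⟨A, h1, h2, h3⟩ := key
    refine lt_of_lt_of_le ?_ (le_csSup bdd ⟨A, h1, h2, rfl⟩)
    obtain ⟨B, rfl⟩ := h1.exists_finset_coe
    rw [sums_coe, differences_coe, Set.ncard_coe_finset, Set.ncard_coe_finset] at h3 ⊢
    rw [Set.ncard_coe_finset] at h2
    have hs : 2 ≤ (B + B).card := le_trans h2 Finset.card_le_card_add_self
    have hs' : (0 : ℝ) < (B + B).card := by
      have : 0 < (B + B).card := by omega
      exact_mod_cast this
    have hlog : 0 < Real.log (B + B).card := Real.log_pos (by exact_mod_cast hs)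
    rw [lt_div_iff₀ hlog]
    have h4 := Real.log_lt_log (Real.rpow_pos_of_pos hs' _) h3
    rwa [Real.log_rpow hs'] at h4

end Pool.Agent.Results.MP_b3aa1a_co.SumDifferenceExponent
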